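import Mathlib

/-!
Phase transitions and transition sets of infinite generating sets of `ℤ × ℤ/2ℤ`.
-/

namespace Pool.Agent.Results.MP_a61939_al.PhaseTransitions

open scoped Pointwise

/-- The group `ℤ × ℤ/2ℤ`. -/
abbrev G : Type := ℤ × ZMod 2

/-- The set of all sums of `k` elements of `B` (the empty sum is `0`). -/
def sums (B : Set G) (k : ℕ) : Set G :=
  {x | ∃ l : List G, l.length = k ∧ (∀ a ∈ l, a ∈ B) ∧ l.sum = x}

/-- `A` is an infinite generating set of `G`: `A` is infinite and every element of `G` is a finite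
sum of elements of `A ∪ (-A)`. -/
def InfiniteGenerating (A : Set G) : Prop := A.Infinite ∧ ∀ x, ∃ k, x ∈ sums (A ∪ -A) k

/-- `S_A(r)`: the set of elements of word length `r`, i.e. those `x` for which `r` is the least `k`
such that `x` is a sum of `k` elements of `A ∪ (-A)`. -/
def sphere (A : Set G) (r : ℕ) : Set G := {x | IsLeast {k | x ∈ sums (A ∪ -A) k} r}

/-- `(r, s)` is the phase transition of `A`: `r` is the largest integer with `L_A(r) > 0`, and
`s = L_A(r)`, a natural number or `∞`. -/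
def IsPhaseTransition (A : Set G) (r : ℕ) (s : ℕ∞) : Prop :=
  IsGreatest {k | (sphere A k).Nonempty} r ∧ (sphere A r).encard = s

/-- `S` is the transition set of some infinite generating set `A` of `G` with phase transition
`(r, |S|)`. -/
def Realises (S : Set G) (r : ℕ) : Prop :=
  ∃ A, InfiniteGenerating A ∧ IsPhaseTransition A r S.encard ∧ sphere A r = S

/-! ### Sums -/

section Sums

variable {B : Set G}

theorem zero_mem_sums_zero : (0 : G) ∈ sums B 0 := ⟨[], rfl, by simp, rfl⟩

theorem mem_sums_zero {x : G} : x ∈ sums B 0 ↔ x = 0 := by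
  constructor
  · rintro ⟨l, hl, -, rfl⟩
    rw [List.length_eq_zero_iff] at hl
    subst hl
    rfl
  · rintro rfl
    exact zero_mem_sums_zero

theorem mem_sums_one {x : G} : x ∈ sums B 1 ↔ x ∈ B := by
  constructor
  · rintro ⟨l, hl, h, rfl⟩
    obtain ⟨a, rfl⟩ := List.length_eq_one_iff.1 hl
    simpa using h a (by simp)
  · intro hx
    exact ⟨[x], rfl, by simpa using hx, by simp⟩

theorem sums_add {x y : G} {m n : ℕ} (hx : x ∈ sums B m) (hy : y ∈ sums B n) :
    x + y ∈ sums B (m + n) := by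
  obtain ⟨l, hl, hl', rfl⟩ := hx
  obtain ⟨l2, hl2, hl2', rfl⟩ := hy
  refine ⟨l ++ l2, by rw [List.length_append, hl, hl2], ?_, List.sum_append⟩
  intro a ha
  rcases List.mem_append.1 ha with h | h
  · exact hl' a h
  · exact hl2' a h

theorem sums_split {x : G} {m n : ℕ} (hx : x ∈ sums B (m + n)) :
    ∃ y ∈ sums B m, ∃ z ∈ sums B n, x = y + z := by
  obtain ⟨l, hl, hl', rfl⟩ := hx
  refine ⟨(l.take m).sum, ⟨l.take m, by rw [List.length_take]; omega,
    fun a ha => hl' a (List.mem_of_mem_take ha), rfl⟩, (l.drop m).sum,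
    ⟨l.drop m, by rw [List.length_drop]; omega, fun a ha => hl' a (List.mem_of_mem_drop ha), rfl⟩, ?_⟩
  rw [← List.sum_append, List.take_append_drop]

theorem sums_mono_set {B' : Set G} (h : B ⊆ B') {k : ℕ} : sums B k ⊆ sums B' k := by
  rintro x ⟨l, hl, hl', rfl⟩
  exact ⟨l, hl, fun a ha => h (hl' a ha), rfl⟩

theorem sums_mono (h0 : (0 : G) ∈ B) {m n : ℕ} (hmn : m ≤ n) : sums B m ⊆ sums B n := by
  intro x hx
  obtain ⟨k, rfl⟩ := Nat.exists_eq_add_of_le hmn
  have h : (0 : G) ∈ sums B k := ⟨List.replicate k 0, by simp, fun a ha => by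
    rw [(List.mem_replicate.1 ha).2]; exact h0, by simp⟩
  have := sums_add hx h
  rwa [add_zero] at this

theorem sums_neg (hneg : ∀ b ∈ B, -b ∈ B) {k : ℕ} {x : G} (hx : x ∈ sums B k) :
    -x ∈ sums B k := by
  obtain ⟨l, hl, hl', rfl⟩ := hx
  refine ⟨l.map (fun a => -a), by simpa using hl, ?_, ?_⟩
  · intro a ha
    obtain ⟨b, hb, rfl⟩ := List.mem_map.1 ha
    exact hneg b (hl' b hb)
  · rw [List.sum_neg]

/-- sums over `insert 0 B` are the sums of at most `k` elements of `B` -/
theorem mem_sums_insert {k : ℕ} {x : G} :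
    x ∈ sums (insert 0 B) k ↔ ∃ j ≤ k, x ∈ sums B j := by
  constructor
  · rintro ⟨l, hl, hl', rfl⟩
    refine ⟨(l.filter (· ≠ 0)).length, ?_, l.filter (· ≠ 0), rfl, ?_, ?_⟩
    · rw [← hl]; exact List.length_filter_le _ _
    · intro a ha
      rw [List.mem_filter] at ha
      rcases hl' a ha.1 with h | h
      · simp [h] at ha
      · exact h
    · clear hl hl'
      induction l with
      | nil => rfl
      | cons a l ih =>
        by_cases ha : a = 0
        · subst ha
          simpa using ih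
        · simpa [List.filter_cons, ha] using ih
  · rintro ⟨j, hj, hx⟩
    exact sums_mono (Set.mem_insert _ _) hj (sums_mono_set (Set.subset_insert _ _) hx)

end Sums

/-- the symmetric set `A ∪ (-A) ∪ {0}` -/
def hull (A : Set G) : Set G := insert 0 (A ∪ -A)

theorem hull_neg (A : Set G) : ∀ b ∈ hull A, -b ∈ hull A := by
  intro b hb
  rcases hb with h | h | h
  · left; rw [h, neg_zero]
  · right; right; simpa using h
  · right; left; exact h

theorem zero_mem_hull (A : Set G) : (0 : G) ∈ hull A := Set.mem_insert _ _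

theorem mem_sphere_zero (A : Set G) {x : G} : x ∈ sphere A 0 ↔ x = 0 := by
  constructor
  · intro h; exact mem_sums_zero.1 h.1
  · rintro rfl; exact ⟨zero_mem_sums_zero, fun _ _ => Nat.zero_le _⟩

theorem mem_sphere_succ (A : Set G) (k : ℕ) {x : G} :
    x ∈ sphere A (k + 1) ↔ x ∈ sums (hull A) (k + 1) ∧ x ∉ sums (hull A) k := by
  constructor
  · rintro ⟨h1, h2⟩
    refine ⟨mem_sums_insert.2 ⟨k + 1, le_rfl, h1⟩, fun h => ?_⟩
    obtain ⟨j, hj, hx⟩ := mem_sums_insert.1 h
    have := h2 hx
    omega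
  · rintro ⟨h1, h2⟩
    obtain ⟨j, hj, hx⟩ := mem_sums_insert.1 h1
    have h3 : ∀ i ≤ k, x ∉ sums (A ∪ -A) i := fun i hi hxi => h2 (mem_sums_insert.2 ⟨i, hi, hxi⟩)
    have hjk : j = k + 1 := by
      by_contra hne
      exact h3 j (by omega) hx
    subst hjk
    exact ⟨hx, fun i hi => by
      by_contra hlt
      exact h3 i (by omega) hi⟩

/-- `hull B = B` for symmetric `B` containing `0` -/
theorem hull_eq {B : Set G} (h0 : (0 : G) ∈ B) (hneg : ∀ b ∈ B, -b ∈ B) : hull B = B := by
  apply Set.Subset.antisymm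
  · rintro b (h | h | h)
    · rw [h]; exact h0
    · exact h
    · have := hneg _ h
      rwa [neg_neg] at this
  · exact fun b hb => Or.inr (Or.inl hb)

theorem exists_sphere (A : Set G) {x : G} (h : ∃ m, x ∈ sums (A ∪ -A) m) :
    ∃ j, x ∈ sphere A j := by
  classical
  exact ⟨Nat.find h, Nat.find_spec h, fun i hi => Nat.find_min' h hi⟩

/-- Characterization of the transition sets by sumsets. -/
theorem realises_succ_iff (S : Set G) (k : ℕ) :
    Realises S (k + 1) ↔ ∃ B : Set G, B.Infinite ∧ (0 : G) ∈ B ∧ (∀ b ∈ B, -b ∈ B) ∧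
      sums B (k + 1) = Set.univ ∧ sums B k = Sᶜ ∧ S.Nonempty := by
  constructor
  · rintro ⟨A, ⟨hinf, hgen⟩, ⟨⟨hne, hmax⟩, -⟩, hS⟩
    refine ⟨hull A, hinf.mono fun a ha => Or.inr (Or.inl ha), zero_mem_hull A, hull_neg A, ?_, ?_, ?_⟩
    · rw [Set.eq_univ_iff_forall]
      intro x
      obtain ⟨j, hj⟩ := exists_sphere A (hgen x)
      have hjk : j ≤ k + 1 := hmax ⟨x, hj⟩
      exact mem_sums_insert.2 ⟨j, hjk, hj.1⟩
    · ext x
      rw [Set.mem_compl_iff, ← hS, mem_sphere_succ]
      constructor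
      · intro h h'; exact h'.2 h
      · intro h
        by_contra h2
        apply h
        refine ⟨?_, h2⟩
        obtain ⟨j, hj⟩ := exists_sphere A (hgen x)
        exact mem_sums_insert.2 ⟨_, hmax ⟨x, hj⟩, hj.1⟩
    · rw [← hS]; exact hne
  · rintro ⟨B, hinf, h0, hneg, hfull, hk, hne⟩
    have hh := hull_eq h0 hneg
    have hsph : sphere B (k + 1) = S := by
      ext x
      rw [mem_sphere_succ, hh, hfull, hk]
      simp
    refine ⟨B, ⟨hinf, fun x => ?_⟩, ⟨⟨?_, ?_⟩, by rw [hsph]⟩, hsph⟩
    · have hx : x ∈ sums B (k + 1) := by rw [hfull]; exact Set.mem_univ x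
      exact ⟨k + 1, sums_mono_set Set.subset_union_left hx⟩
    · show (sphere B (k + 1)).Nonempty
      rw [hsph]; exact hne
    · rintro m ⟨x, hx⟩
      rcases m with _ | m
      · omega
      rw [mem_sphere_succ, hh] at hx
      by_contra hlt
      apply hx.2
      have : sums B (k + 1) ⊆ sums B m := sums_mono h0 (by omega)
      apply this
      rw [hfull]; exact Set.mem_univ x

/-- the phase transition never has `r = 0` -/
theorem not_realises_zero (S : Set G) : ¬ Realises S 0 := by
  rintro ⟨A, ⟨hinf, -⟩, ⟨⟨-, hmax⟩, -⟩, -⟩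
  obtain ⟨a, ha, ha0⟩ : ∃ a ∈ A, a ≠ 0 := by
    by_contra h
    push Not at h
    exact hinf ((Set.finite_singleton (0 : G)).subset fun a ha => h a ha)
  have h1 : a ∈ sphere A 1 := by
    rw [mem_sphere_succ, mem_sums_one, mem_sums_zero]
    exact ⟨Or.inr (Or.inl ha), ha0⟩
  have := hmax ⟨a, h1⟩
  omega

/-! ### The greedy construction -/

section Greedy

variable {S : Set G} {M : ℕ}

theorem decomp (B : Set G) (x y : G) (k : ℕ) (z : G)
    (hz : z ∈ sums (B ∪ {x, -x, y, -y}) k) :
    ∃ (m n : ℤ) (j : ℕ), |m| + |n| + j ≤ k ∧ ∃ w ∈ sums B j, z = m • x + n • y + w := by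
  obtain ⟨l, rfl, hl, rfl⟩ := hz
  induction l with
  | nil => exact ⟨0, 0, 0, by simp, 0, zero_mem_sums_zero, by simp⟩
  | cons a l ih =>
    obtain ⟨m, n, j, hmn, w, hw, hsum⟩ := ih fun b hb => hl b (List.mem_cons_of_mem _ hb)
    have ha := hl a (by simp)
    rw [List.sum_cons, hsum, List.length_cons]
    push_cast
    rcases ha with ha | ha | ha | ha | ha
    · refine ⟨m, n, j + 1, by push_cast; linarith, a + w, ?_, by abel⟩
      have := sums_add (mem_sums_one.2 ha) hw
      rwa [add_comm 1 j] at this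
    · subst ha
      refine ⟨m + 1, n, j, ?_, w, hw, by rw [add_smul, one_smul]; abel⟩
      have := abs_add_le m 1
      simp at this
      linarith
    · subst ha
      refine ⟨m - 1, n, j, ?_, w, hw, by rw [sub_smul, one_smul]; abel⟩
      have := abs_sub m 1
      simp at this
      linarith
    · subst ha
      refine ⟨m, n + 1, j, ?_, w, hw, by rw [add_smul, one_smul]; abel⟩
      have := abs_add_le n 1
      simp at this
      linarith
    · rw [Set.mem_singleton_iff] at ha
      subst ha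
      refine ⟨m, n - 1, j, ?_, w, hw, by rw [sub_smul, one_smul]; abel⟩
      have := abs_sub n 1
      simp at this
      linarith

theorem sums_bound {B : Set G} {R : ℤ} (hR : ∀ b ∈ B, |b.1| ≤ R) {j : ℕ} {w : G}
    (hw : w ∈ sums B j) : |w.1| ≤ j * R := by
  obtain ⟨l, rfl, hl, rfl⟩ := hw
  induction l with
  | nil => simp
  | cons a l ih =>
    have h1 := ih fun b hb => hl b (List.mem_cons_of_mem _ hb)
    have h2 := hR a (hl a (by simp))
    rw [List.sum_cons, Prod.fst_add, List.length_cons]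
    push_cast
    have := abs_add_le a.1 l.sum.1
    linarith

/-- the invariant of the construction -/
structure Good (S : Set G) (M : ℕ) (B : Set G) : Prop where
  fin : B.Finite
  zero : (0 : G) ∈ B
  neg : ∀ b ∈ B, -b ∈ B
  avoid : ∀ s ∈ S, s ∉ sums B M

theorem exists_bound {B : Set G} (h : B.Finite) : ∃ R : ℤ, 0 ≤ R ∧ ∀ b ∈ B, |b.1| ≤ R := by
  obtain ⟨R, hR⟩ := (h.image fun b : G => |b.1|).bddAbove
  exact ⟨max R 0, le_max_right _ _, fun b hb => (hR ⟨b, hb, rfl⟩).trans (le_max_left _ _)⟩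

theorem step (hS : S.Finite) (hSneg : ∀ s ∈ S, -s ∈ S) (hM : 1 ≤ M) {B : Set G} (hB : Good S M B)
    (g : G) : ∃ B', B ⊆ B' ∧ Good S M B' ∧ (g ∉ S → g ∈ sums B' M) ∧ g ∈ sums B' (M + 1) := by
  obtain ⟨R0, hR0, hR0'⟩ := exists_bound hB.fin
  obtain ⟨R2, hR2, hR2'⟩ := exists_bound hS
  set Z : ℤ := M * |g.1| + M * R0 + R2 + 1 with hZ
  obtain ⟨K, hK⟩ : ∃ K : ℕ, (g ∉ S ∧ K + 1 = M) ∨ (g ∈ S ∧ K = M) := by
    by_cases hg : g ∈ S
    · exact ⟨M, Or.inr ⟨hg, rfl⟩⟩
    · exact ⟨M - 1, Or.inl ⟨hg, by omega⟩⟩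
  let x : G := (Z, 0)
  let y : G := g - K • x
  refine ⟨B ∪ {x, -x, y, -y}, Set.subset_union_left, ⟨?_, Or.inl hB.zero, ?_, ?_⟩, ?_, ?_⟩
  · exact hB.fin.union (Set.toFinite _)
  · rintro b (hb | hb | hb | hb | hb)
    · exact Or.inl (hB.neg b hb)
    · subst hb; right; simp
    · subst hb; right; simp
    · subst hb; right; simp
    · rw [Set.mem_singleton_iff] at hb; subst hb; right; simp
  · intro s hs hs'
    obtain ⟨m, n, j, hmn, w, hw, hsum⟩ := decomp B x y M s hs'
    have hy1 : y.1 = g.1 - K * Z := by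
      show (g - K • ((Z, 0) : G)).1 = _
      rw [Prod.fst_sub, Prod.smul_fst, nsmul_eq_mul]
    have hz1 : s.1 = (m - K * n) * Z + n * g.1 + w.1 := by
      rw [hsum, Prod.fst_add, Prod.fst_add, Prod.smul_fst, Prod.smul_fst, hy1, smul_eq_mul,
        smul_eq_mul]
      show m * Z + n * (g.1 - K * Z) + w.1 = _
      ring
    have hm0 := abs_nonneg m
    have hn0 := abs_nonneg n
    have hj0 : (0 : ℤ) ≤ j := Int.natCast_nonneg j
    have hM0 : (0 : ℤ) ≤ M := Int.natCast_nonneg M
    by_cases hc : m - K * n = 0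
    · -- the coefficient vanishes
      have hmK : m = K * n := by linarith
      have habs : |m| = K * |n| := by rw [hmK, abs_mul, Nat.abs_cast]
      rcases eq_or_ne n 0 with hn | hn
      · subst hn
        have hm : m = 0 := by simpa using hmK
        subst hm
        have : s ∈ sums B M := by
          rw [hsum]
          simp only [zero_smul, zero_add]
          refine sums_mono hB.zero ?_ hw
          simp at hmn
          omega
        exact hB.avoid s hs this
      · have hn1 : 1 ≤ |n| := Int.one_le_abs hn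
        rcases hK with ⟨hg, hKM⟩ | ⟨hg, hKM⟩
        · have hKM' : (K : ℤ) + 1 = M := by exact_mod_cast hKM
          have h1 : (K + 1) * |n| + j ≤ K + 1 := by
            rw [habs] at hmn
            rw [hKM']
            rw [← hKM'] at hmn ⊢
            linarith
          have h2 : |n| = 1 := by
            have hKp : (0 : ℤ) < K + 1 := by positivity
            have : (K + 1) * |n| ≤ (K + 1) * 1 := by linarith
            have := le_of_mul_le_mul_left this hKp
            omega
          have h3 : j = 0 := by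
            rw [h2] at h1
            omega
          subst h3
          have hw0 := mem_sums_zero.1 hw
          rcases (abs_eq (by norm_num : (0 : ℤ) ≤ 1)).1 h2 with h4 | h4
          · -- s = g
            apply hg
            have : s = g := by
              rw [hsum, hw0, hmK, h4]
              simp [y]
            rwa [← this]
          · apply hg
            have : s = -g := by
              rw [hsum, hw0, hmK, h4]
              simp [y]
              ring
            have h5 := hSneg s hs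
            rw [this, neg_neg] at h5
            exact h5
        · have hKM' : (K : ℤ) = M := by exact_mod_cast hKM
          rw [habs, hKM'] at hmn
          have : (M : ℤ) * 1 ≤ M * |n| := mul_le_mul_of_nonneg_left hn1 hM0
          linarith
    · -- huge first coordinate
      have h1 : 1 ≤ |m - K * n| := Int.one_le_abs hc
      have h2 : Z ≤ |(m - K * n) * Z| := by
        rw [abs_mul]
        have hZ0 : 0 ≤ Z := by rw [hZ]; positivity
        rw [abs_of_nonneg hZ0]
        nlinarith
      have h3 : |n * g.1| ≤ M * |g.1| := by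
        rw [abs_mul]
        apply mul_le_mul_of_nonneg_right _ (abs_nonneg _)
        linarith
      have h4 : |w.1| ≤ M * R0 := by
        refine (sums_bound hR0' hw).trans ?_
        apply mul_le_mul_of_nonneg_right _ hR0
        linarith
      have h5 : |s.1| ≤ R2 := hR2' s hs
      have h6 : |(m - K * n) * Z| ≤ |s.1| + |n * g.1| + |w.1| := by
        have : (m - K * n) * Z = s.1 - n * g.1 - w.1 := by rw [hz1]; ring
        rw [this]
        have e1 := abs_sub (s.1 - n * g.1) w.1
        have e2 := abs_sub s.1 (n * g.1)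
        linarith
      linarith
  · intro hg
    rcases hK with ⟨_, hKM⟩ | ⟨hg', _⟩
    · refine ⟨y :: List.replicate K x, by simp [hKM], ?_, ?_⟩
      · intro a ha
        rcases List.mem_cons.1 ha with rfl | ha
        · right; simp
        · rw [(List.mem_replicate.1 ha).2]; right; simp
      · simp [y]
    · exact absurd hg' hg
  · have hKl : K ≤ M := by omega
    have h1 : g ∈ sums (B ∪ {x, -x, y, -y}) (K + 1) := by
      refine ⟨y :: List.replicate K x, by simp, ?_, by simp [y]⟩
      intro a ha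
      rcases List.mem_cons.1 ha with rfl | ha
      · right; simp
      · rw [(List.mem_replicate.1 ha).2]; right; simp
    exact sums_mono (Or.inl hB.zero) (by omega) h1

/-- the increasing sequence of finite sets -/
theorem exists_set (hS : S.Finite) (hS0 : (0 : G) ∉ S) (hSneg : ∀ s ∈ S, -s ∈ S) (hM : 1 ≤ M) :
    ∃ B : Set G, (0 : G) ∈ B ∧ (∀ b ∈ B, -b ∈ B) ∧ sums B M = Sᶜ ∧ sums B (M + 1) = Set.univ := by
  obtain ⟨e, he⟩ := exists_surjective_nat G
  have hbase : Good S M {0} := by
    refine ⟨Set.finite_singleton _, rfl, fun b hb => ?_, fun s hs hs' => ?_⟩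
    · rw [Set.mem_singleton_iff] at hb ⊢
      rw [hb, neg_zero]
    · obtain ⟨l, -, hl, hsum⟩ := hs'
      apply hS0
      have : s = 0 := by
        rw [← hsum]
        exact List.sum_eq_zero fun a ha => hl a ha
      rwa [← this]
  choose! nxt h1 h2 h3 h4 using fun (B : Set G) (hB : Good S M B) (g : G) =>
    step (g := g) hS hSneg hM hB
  let seq : ℕ → Set G := fun n => Nat.rec {0} (fun n B => nxt B (e n)) n
  have hgood : ∀ n, Good S M (seq n) := by
    intro n
    induction n with
    | zero => exact hbase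
    | succ n ih => exact h2 _ ih _
  have hmono : Monotone seq := monotone_nat_of_le_succ fun n => h1 _ (hgood n) _
  have hfin : ∀ k x, x ∈ sums (⋃ n, seq n) k → ∃ n, x ∈ sums (seq n) k := by
    rintro k x ⟨l, rfl, hl, rfl⟩
    have : ∃ n, ∀ a ∈ l, a ∈ seq n := by
      induction l with
      | nil => exact ⟨0, by simp⟩
      | cons a l ih =>
        obtain ⟨n, hn⟩ := ih fun b hb => hl b (List.mem_cons_of_mem _ hb)
        obtain ⟨m, hm⟩ := Set.mem_iUnion.1 (hl a (by simp))
        refine ⟨max m n, fun b hb => ?_⟩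
        rcases List.mem_cons.1 hb with rfl | hb
        · exact hmono (le_max_left _ _) hm
        · exact hmono (le_max_right _ _) (hn b hb)
    obtain ⟨n, hn⟩ := this
    exact ⟨n, l, rfl, hn, rfl⟩
  refine ⟨⋃ n, seq n, Set.mem_iUnion.2 ⟨0, (hgood 0).zero⟩, ?_, ?_, ?_⟩
  · intro b hb
    obtain ⟨n, hn⟩ := Set.mem_iUnion.1 hb
    exact Set.mem_iUnion.2 ⟨n, (hgood n).neg b hn⟩
  · ext g
    constructor
    · intro hg hgS
      obtain ⟨n, hn⟩ := hfin M g hg
      exact (hgood n).avoid g hgS hn
    · intro hg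
      obtain ⟨n, rfl⟩ := he g
      exact sums_mono_set (Set.subset_iUnion seq (n + 1)) (h3 _ (hgood n) (e n) hg)
  · rw [Set.eq_univ_iff_forall]
    intro g
    obtain ⟨n, rfl⟩ := he g
    exact sums_mono_set (Set.subset_iUnion seq (n + 1)) (h4 _ (hgood n) (e n))

end Greedy

/-- finite transition sets -/
theorem realises_finite {S : Set G} (hS : S.Finite) (r : ℕ) :
    Realises S r ↔ 2 ≤ r ∧ S.Nonempty ∧ (0 : G) ∉ S ∧ ∀ s ∈ S, -s ∈ S := by
  constructor
  · intro h
    obtain ⟨k, rfl⟩ : ∃ k, r = k + 1 := by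
      rcases r with _ | k
      · exact absurd h (not_realises_zero S)
      · exact ⟨k, rfl⟩
    obtain ⟨B, hinf, h0, hneg, hfull, hk, hne⟩ := (realises_succ_iff S k).1 h
    refine ⟨?_, hne, ?_, ?_⟩
    · by_contra hlt
      have hk0 : k = 0 := by omega
      subst hk0
      have h1 : Sᶜ = {0} := by
        rw [← hk]
        ext x
        rw [mem_sums_zero]
        rfl
      have h2 : (Set.univ : Set G).Finite := by
        rw [← Set.union_compl_self S, h1]
        exact hS.union (Set.finite_singleton _)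
      exact Set.infinite_univ h2
    · intro h0S
      have : (0 : G) ∈ sums B k := sums_mono h0 (Nat.zero_le _) zero_mem_sums_zero
      rw [hk] at this
      exact this h0S
    · intro s hs
      by_contra hcon
      have h1 : -s ∈ sums B k := by rw [hk]; exact hcon
      have h2 := sums_neg hneg h1
      rw [neg_neg, hk] at h2
      exact h2 hs
  · rintro ⟨hr, hne, h0, hneg⟩
    obtain ⟨k, rfl⟩ : ∃ k, r = k + 1 := ⟨r - 1, by omega⟩
    obtain ⟨B, hB0, hBneg, hB1, hB2⟩ := exists_set (M := k) hS h0 hneg (by omega)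
    refine (realises_succ_iff S k).2 ⟨B, ?_, hB0, hBneg, hB2, hB1, hne⟩
    intro hfin
    -- sums of a finite set are finite
    have h1 : (sums B (k + 1)).Finite := by
      have : sums B (k + 1) ⊆ List.sum '' {l : List G | l.length = k + 1 ∧ ∀ a ∈ l, a ∈ B} := by
        rintro x ⟨l, hl, hl', rfl⟩
        exact ⟨l, ⟨hl, hl'⟩, rfl⟩
      refine Set.Finite.subset (Set.Finite.image _ ?_) this
      have := hfin.to_subtype
      have h2 : {l : List B | l.length = k + 1}.Finite := List.finite_length_eq _ _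
      refine (h2.image (List.map Subtype.val)).subset ?_
      rintro l ⟨hl, hl'⟩
      refine ⟨l.pmap Subtype.mk hl', by simpa using hl, ?_⟩
      simp [List.map_pmap]
    rw [hB2] at h1
    exact Set.infinite_univ h1

/-! ### Infinite transition sets -/

theorem sums_two (B : Set G) : sums B 2 = B + B := by
  ext x
  rw [Set.mem_add]
  constructor
  · intro hx
    obtain ⟨y, hy, z, hz, rfl⟩ := sums_split (m := 1) (n := 1) hx
    exact ⟨y, mem_sums_one.1 hy, z, mem_sums_one.1 hz, rfl⟩
  · rintro ⟨y, hy, z, hz, rfl⟩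
    exact sums_add (mem_sums_one.2 hy) (mem_sums_one.2 hz)

theorem sums_one (B : Set G) : sums B 1 = B := by
  ext x; exact mem_sums_one

theorem sums_zero (B : Set G) : sums B 0 = {0} := by
  ext x; exact mem_sums_zero

theorem neg_eq_iff (S : Set G) : -S = S ↔ ∀ s ∈ S, -s ∈ S := by
  constructor
  · intro h s hs
    rw [← h, Set.mem_neg, neg_neg]
    exact hs
  · intro h
    ext x
    rw [Set.mem_neg]
    exact ⟨fun hx => by simpa using h _ hx, fun hx => h _ hx⟩

theorem realises_one (S : Set G) : Realises S 1 ↔ S = {0}ᶜ := by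
  rw [realises_succ_iff S 0]
  constructor
  · rintro ⟨B, -, -, -, -, h, -⟩
    rw [sums_zero] at h
    rw [h, compl_compl]
  · rintro rfl
    refine ⟨Set.univ, Set.infinite_univ, Set.mem_univ _, fun _ _ => Set.mem_univ _, ?_, ?_, ?_⟩
    · rw [sums_one]
    · rw [sums_zero, compl_compl]
    · exact ⟨(1, 0), by simp⟩

/-- the condition for infinite transition sets with `r = 2` -/
def Cond (S : Set G) : Prop := -S = S ∧ (0 : G) ∉ S ∧ Sᶜ.Infinite ∧ Sᶜ + Sᶜ = Set.univ

theorem compl_neg {S : Set G} (h : ∀ s ∈ S, -s ∈ S) : ∀ s ∈ Sᶜ, -s ∈ Sᶜ := by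
  intro s hs hs'
  have := h _ hs'
  rw [neg_neg] at this
  exact hs this

theorem cond_of_realises {S : Set G} {k : ℕ} (hk : 1 ≤ k) (h : Realises S (k + 1)) : Cond S := by
  obtain ⟨B, hinf, h0, hneg, hfull, hk', hne⟩ := (realises_succ_iff S k).1 h
  have hneg' : ∀ s ∈ Sᶜ, -s ∈ Sᶜ := by
    rw [← hk']
    exact fun s hs => sums_neg hneg hs
  refine ⟨?_, ?_, ?_, ?_⟩
  · rw [neg_eq_iff]
    have := compl_neg hneg'
    rwa [compl_compl] at this
  · intro h0S
    have : (0 : G) ∈ sums B k := sums_mono h0 (Nat.zero_le _) zero_mem_sums_zero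
    rw [hk'] at this
    exact this h0S
  · rw [← hk']
    refine hinf.mono fun b hb => ?_
    exact sums_mono h0 hk (mem_sums_one.2 hb)
  · rw [Set.eq_univ_iff_forall]
    intro x
    have hx : x ∈ sums B (k + k) := by
      apply sums_mono h0 (show k + 1 ≤ k + k by omega)
      rw [hfull]; exact Set.mem_univ x
    obtain ⟨y, hy, z, hz, rfl⟩ := sums_split hx
    rw [hk'] at hy hz
    exact Set.add_mem_add hy hz

theorem realises_two {S : Set G} (hne : S.Nonempty) : Realises S 2 ↔ Cond S := by
  constructor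
  · exact cond_of_realises le_rfl
  · rintro ⟨h1, h2, h3, h4⟩
    refine (realises_succ_iff S 1).2 ⟨Sᶜ, h3, h2, compl_neg ((neg_eq_iff S).1 h1), ?_, ?_, hne⟩
    · rw [sums_two, h4]
    · rw [sums_one]

theorem realises_infinite {S : Set G} (hne : S.Nonempty) :
    (∃ r, Realises S r) ↔ S = {0}ᶜ ∨ Cond S := by
  constructor
  · rintro ⟨r, hr⟩
    rcases r with _ | _ | k
    · exact absurd hr (not_realises_zero S)
    · exact Or.inl ((realises_one S).1 hr)
    · exact Or.inr (cond_of_realises (by omega) hr)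
  · rintro (h | h)
    · exact ⟨1, (realises_one S).2 h⟩
    · exact ⟨2, (realises_two hne).2 h⟩

/-! ### All phase transitions -/

theorem exists_sym (n : ℕ) (hn : 1 ≤ n) :
    ∃ S : Set G, S.encard = n ∧ S.Nonempty ∧ (0 : G) ∉ S ∧ ∀ s ∈ S, -s ∈ S := by
  obtain ⟨T, hT, hTneg⟩ : ∃ T : Finset ℤ, T.card = n ∧ ∀ t ∈ T, -t ∈ T := by
    rcases Nat.even_or_odd' n with ⟨t, ht | ht⟩
    · refine ⟨(Finset.Icc (-(t : ℤ)) t).erase 0, ?_, ?_⟩
      · rw [Finset.card_erase_of_mem (by simp), Int.card_Icc]
        omega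
      · intro a ha
        simp only [Finset.mem_erase, Finset.mem_Icc] at ha ⊢
        omega
    · refine ⟨Finset.Icc (-(t : ℤ)) t, ?_, ?_⟩
      · rw [Int.card_Icc]
        omega
      · intro a ha
        simp only [Finset.mem_Icc] at ha ⊢
        omega
  have hinj : Function.Injective (fun k : ℤ => ((k, 1) : G)) := fun a b h => by
    simpa using congrArg Prod.fst h
  refine ⟨(fun k : ℤ => ((k, 1) : G)) '' (T : Set ℤ), ?_, ?_, ?_, ?_⟩
  · rw [hinj.encard_image, Set.encard_coe_eq_coe_finsetCard, hT]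
  · have : T.Nonempty := Finset.card_pos.1 (by omega)
    exact this.to_set.image _
  · rintro ⟨k, -, hk⟩
    have h1 : (1 : ZMod 2) = 0 := congrArg Prod.snd hk
    exact absurd h1 (by decide)
  · rintro _ ⟨k, hk, rfl⟩
    refine ⟨-k, hTneg k hk, ?_⟩
    show ((-k, 1) : G) = (-k, -1)
    congr 1

/-- the set used for infinite phase transitions -/
def modSet (r : ℕ) : Set G := {x | ∃ c m : ℤ, |c| ≤ 1 ∧ x.1 = c + 2 * r * m}

theorem modSet_sums (r k : ℕ) {x : G} (hx : x ∈ sums (modSet r) k) :
    ∃ c m : ℤ, |c| ≤ k ∧ x.1 = c + 2 * r * m := by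
  obtain ⟨l, rfl, hl, rfl⟩ := hx
  induction l with
  | nil => exact ⟨0, 0, by simp, by simp⟩
  | cons a l ih =>
    obtain ⟨c, m, hc, hm⟩ := ih fun b hb => hl b (List.mem_cons_of_mem _ hb)
    obtain ⟨c', m', hc', hm'⟩ := hl a (by simp)
    refine ⟨c' + c, m' + m, ?_, ?_⟩
    · rw [List.length_cons]
      push_cast
      have := abs_add_le c' c
      linarith
    · rw [List.sum_cons, Prod.fst_add, hm, hm']
      ring

theorem infinite_transition (r : ℕ) (hr : 1 ≤ r) :
    ∃ A, InfiniteGenerating A ∧ IsPhaseTransition A r ⊤ := by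
  obtain ⟨k, rfl⟩ : ∃ k, r = k + 1 := ⟨r - 1, by omega⟩
  have h0 : (0 : G) ∈ modSet (k + 1) := ⟨0, 0, by simp, by simp⟩
  have hinf : (modSet (k + 1)).Infinite := by
    refine Set.infinite_of_injective_forall_mem (f := fun m : ℤ => ((2 * (k + 1) * m, 0) : G)) ?_ ?_
    · intro a b hab
      have h1 : 2 * ((k : ℤ) + 1) * a = 2 * (k + 1) * b := congrArg Prod.fst hab
      have h2 : (2 * ((k : ℤ) + 1)) ≠ 0 := by positivity
      exact mul_left_cancel₀ h2 h1
    · intro m
      exact ⟨0, m, by simp, by push_cast; ring⟩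
  have hneg : ∀ b ∈ modSet (k + 1), -b ∈ modSet (k + 1) := by
    rintro b ⟨c, m, hc, hm⟩
    refine ⟨-c, -m, by rwa [abs_neg], ?_⟩
    rw [Prod.fst_neg, hm]; ring
  -- the sums of `k` elements miss infinitely many elements
  have hmiss : ∀ m : ℤ, (((k + 1 : ℤ) + 2 * (k + 1) * m, 0) : G) ∉ sums (modSet (k + 1)) k := by
    intro m hm
    obtain ⟨c, m', hc, hm'⟩ := modSet_sums _ _ hm
    have h1 : (k + 1 : ℤ) + 2 * (k + 1) * m = c + 2 * ((k + 1 : ℕ) : ℤ) * m' := hm'
    push_cast at h1
    have h2 : (k + 1 : ℤ) - c = 2 * (k + 1) * (m' - m) := by linarith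
    have h3 := abs_le.1 hc
    have h4 : 0 < (k + 1 : ℤ) - c := by linarith [h3.2]
    have h5 : (k + 1 : ℤ) - c < 2 * (k + 1) := by linarith [h3.1]
    rw [h2] at h4 h5
    have h6 : 0 < m' - m := by
      by_contra hcon
      push Not at hcon
      have : 2 * ((k : ℤ) + 1) * (m' - m) ≤ 0 :=
        mul_nonpos_of_nonneg_of_nonpos (by positivity) hcon
      linarith
    have h7 : 2 * ((k : ℤ) + 1) * 1 ≤ 2 * (k + 1) * (m' - m) :=
      mul_le_mul_of_nonneg_left h6 (by positivity)
    linarith
  have hSinf : ((sums (modSet (k + 1)) k)ᶜ).Infinite := by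
    refine Set.infinite_of_injective_forall_mem
      (f := fun m : ℤ => (((k + 1 : ℤ) + 2 * (k + 1) * m, 0) : G)) ?_ hmiss
    intro a b hab
    have h1 : (k + 1 : ℤ) + 2 * (k + 1) * a = (k + 1 : ℤ) + 2 * (k + 1) * b :=
      congrArg Prod.fst hab
    have h2 : (2 * ((k : ℤ) + 1)) ≠ 0 := by positivity
    exact mul_left_cancel₀ h2 (by linarith)
  have hfull : sums (modSet (k + 1)) (k + 1) = Set.univ := by
    rw [Set.eq_univ_iff_forall]
    intro x
    -- write `x.1 = c + 2 (k+1) m` with `|c| ≤ k + 1`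
    obtain ⟨c, m, hc, hm⟩ : ∃ c m : ℤ, |c| ≤ k + 1 ∧ x.1 = c + 2 * (k + 1) * m := by
      refine ⟨(x.1 + k) % (2 * (k + 1)) - k, (x.1 + k) / (2 * (k + 1)), ?_, ?_⟩
      · have h1 := Int.emod_nonneg (x.1 + k) (show (2 * ((k : ℤ) + 1)) ≠ 0 by positivity)
        have h2 := Int.emod_lt_of_pos (x.1 + k) (show 0 < (2 * ((k : ℤ) + 1)) by positivity)
        rw [abs_le]
        constructor <;> linarith
      · have := Int.emod_add_mul_ediv (x.1 + k) (2 * (k + 1))
        linarith
    -- case distinction on the sign of `c`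
    have key : ∀ (e : ℤ), |e| = 1 → ∀ n : ℕ, n ≤ k + 1 → x.1 = e * n + 2 * (k + 1) * m →
        x ∈ sums (modSet (k + 1)) (k + 1) := by
      intro e he n hn hx
      rcases n with _ | n
      · refine sums_mono h0 (show 1 ≤ k + 1 by omega) (mem_sums_one.2 ⟨0, m, by simp, ?_⟩)
        rw [hx]; push_cast; ring
      · refine sums_mono h0 hn ⟨(e + 2 * (k + 1) * m, x.2) :: List.replicate n ((e, 0) : G),
          by simp, ?_, ?_⟩
        · intro a ha
          rcases List.mem_cons.1 ha with rfl | ha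
          · exact ⟨e, m, he.le, by push_cast; ring⟩
          · rw [(List.mem_replicate.1 ha).2]
            exact ⟨e, 0, he.le, by simp⟩
        · rw [List.sum_cons, List.sum_replicate]
          apply Prod.ext
          · rw [Prod.fst_add, Prod.smul_fst, hx, nsmul_eq_mul]
            push_cast
            ring
          · rw [Prod.snd_add, Prod.smul_snd]
            simp
    rcases le_total 0 c with h | h
    · refine key 1 (by simp) c.toNat ?_ ?_
      · rw [abs_of_nonneg h] at hc
        omega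
      · rw [hm, Int.toNat_of_nonneg h]; ring
    · refine key (-1) (by simp) (-c).toNat ?_ ?_
      · rw [abs_of_nonpos h] at hc
        omega
      · rw [hm, Int.toNat_of_nonneg (by linarith)]; ring
  have hreal : Realises ((sums (modSet (k + 1)) k)ᶜ) (k + 1) := by
    rw [realises_succ_iff]
    exact ⟨modSet (k + 1), hinf, h0, hneg, hfull, by rw [compl_compl], hSinf.nonempty⟩
  obtain ⟨A, hA, hA', -⟩ := hreal
  rw [hSinf.encard_eq] at hA'
  exact ⟨A, hA, hA'⟩

theorem transitions (r : ℕ) (s : ℕ∞) :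
    (∃ A, InfiniteGenerating A ∧ IsPhaseTransition A r s) ↔
      (2 ≤ r ∧ 1 ≤ s ∧ s ≠ ⊤) ∨ (1 ≤ r ∧ s = ⊤) := by
  constructor
  · rintro ⟨A, hA, hA'⟩
    have hreal : Realises (sphere A r) r := ⟨A, hA, ⟨hA'.1, rfl⟩, rfl⟩
    by_cases hs : s = ⊤
    · right
      refine ⟨?_, hs⟩
      rcases r with _ | r
      · exact absurd hreal (not_realises_zero _)
      · omega
    · left
      have hfin : (sphere A r).Finite := by
        rw [← Set.encard_ne_top_iff, hA'.2]
        exact hs
      refine ⟨((realises_finite hfin r).1 hreal).1, ?_, hs⟩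
      rw [← hA'.2, Set.one_le_encard_iff_nonempty]
      exact hA'.1.1
  · rintro (⟨h1, h2, h3⟩ | ⟨h1, rfl⟩)
    · obtain ⟨n, rfl⟩ := ENat.ne_top_iff_exists.1 h3
      have hn : 1 ≤ n := by exact_mod_cast h2
      obtain ⟨S, hS1, hS2, hS3, hS4⟩ := exists_sym n hn
      have hfin : S.Finite := by
        rw [← Set.encard_ne_top_iff, hS1]
        exact ENat.natCast_ne_top n
      obtain ⟨A, hA, hA', -⟩ := (realises_finite hfin r).2 ⟨h1, hS2, hS3, hS4⟩
      rw [hS1] at hA'
      exact ⟨A, hA, hA'⟩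
    · exact infinite_transition r h1

/-- **Main theorem.**
(a) The phase transitions of infinite generating sets of `G` are exactly the pairs `(r, s)` with
`r ≥ 2`, `1 ≤ s < ∞` and the pairs `(r, ∞)` with `r ≥ 1`.
(b) A finite set `S` is a transition set with phase transition `(r, |S|)` exactly when `r ≥ 2` and
`S` is non-empty, symmetric and does not contain `0`. An infinite set `S` is a transition set for
some `r` exactly when `S = G \ {0}` (here `r = 1`), or `S` is symmetric, does not contain `0`, its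
complement is infinite and every element of `G` is a sum of two elements of the complement (these
are exactly the infinite sets occurring with `r = 2`); in general an infinite set `S` is a
transition set with phase transition `(r, ∞)` exactly when its complement is the `(r-1)`-fold sumset
of an infinite symmetric set `B` containing `0` whose `r`-fold sumset is `G`. -/
theorem result :
    (∀ (r : ℕ) (s : ℕ∞), (∃ A, InfiniteGenerating A ∧ IsPhaseTransition A r s) ↔
      (2 ≤ r ∧ 1 ≤ s ∧ s ≠ ⊤) ∨ (1 ≤ r ∧ s = ⊤)) ∧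
    (∀ S : Set G, S.Finite → ∀ r, Realises S r ↔
      2 ≤ r ∧ S.Nonempty ∧ (0 : G) ∉ S ∧ -S = S) ∧
    (∀ S : Set G, S.Infinite →
      (Realises S 1 ↔ S = {0}ᶜ) ∧
      (Realises S 2 ↔ -S = S ∧ (0 : G) ∉ S ∧ Sᶜ.Infinite ∧ Sᶜ + Sᶜ = Set.univ) ∧
      ((∃ r, Realises S r) ↔
        S = {0}ᶜ ∨ (-S = S ∧ (0 : G) ∉ S ∧ Sᶜ.Infinite ∧ Sᶜ + Sᶜ = Set.univ)) ∧
      (∀ r, 1 ≤ r → (Realises S r ↔ ∃ B : Set G, B.Infinite ∧ (0 : G) ∈ B ∧ -B = B ∧
        sums B r = Set.univ ∧ sums B (r - 1) = Sᶜ))) := by
  refine ⟨transitions, fun S hS r => ?_, fun S hS => ⟨realises_one S, realises_two hS.nonempty,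
    realises_infinite hS.nonempty, fun r hr => ?_⟩⟩
  · rw [realises_finite hS, neg_eq_iff]
  · obtain ⟨k, rfl⟩ : ∃ k, r = k + 1 := ⟨r - 1, by omega⟩
    rw [realises_succ_iff]
    constructor
    · rintro ⟨B, h1, h2, h3, h4, h5, -⟩
      exact ⟨B, h1, h2, (neg_eq_iff B).2 h3, h4, h5⟩
    · rintro ⟨B, h1, h2, h3, h4, h5⟩
      exact ⟨B, h1, h2, (neg_eq_iff B).1 h3, h4, h5, hS.nonempty⟩

end Pool.Agent.Results.MP_a61939_al.PhaseTransitions
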